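import Pool.Agent.helper55.ZI.Spec2

set_option autoImplicit false

universe u

namespace Pool.Agent.helper63.ZI

open Pool.Agent.ZI

theorem QIN_aux (A : Type u) [Ring A] [IsSemisimpleRing A] (m k : ℕ)
    (B : Matrix (Fin m) (Fin k) A) : ∃ B' : Matrix (Fin k) (Fin m) A, B * B' * B = B := by
  obtain ⟨f, hf⟩ : ∃ f : (Fin m → A) →ₗ[A] (Fin k → A), f = Matrix.toLinearMapRight' B := ⟨_, rfl⟩
  obtain ⟨s, hs⟩ := IsSemisimpleModule.lifting_property f.rangeRestrict
    f.surjective_rangeRestrict (LinearMap.id : LinearMap.range f →ₗ[A] LinearMap.range f)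
  obtain ⟨h, hh⟩ := IsSemisimpleModule.extension_property (LinearMap.range f).subtype
    (Submodule.injective_subtype _) s
  have key : ∀ x, f (h (f x)) = f x := by
    intro x
    have h1 : h (f x) = s (f.rangeRestrict x) := by
      have := LinearMap.congr_fun hh (f.rangeRestrict x)
      exact this
    have h2 : f.rangeRestrict (s (f.rangeRestrict x)) = f.rangeRestrict x := by
      have := LinearMap.congr_fun hs (f.rangeRestrict x)
      exact this
    rw [h1]
    exact congrArg Subtype.val h2
  refine ⟨LinearMap.toMatrixRight' h, ?_⟩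
  apply Matrix.toLinearMapRight'.injective
  have e : Matrix.toLinearMapRight' (LinearMap.toMatrixRight' h) = h :=
    LinearEquiv.symm_apply_apply _ _
  rw [Matrix.toLinearMapRight'_mul, Matrix.toLinearMapRight'_mul, e, ← hf]
  exact LinearMap.ext key

theorem QIN : QIN_stmt.{u} := by
  intro R _ S hS m k B
  choose n hn using fun p : Fin m × Fin k => hS.cov (B p.1 p.2)
  obtain ⟨N, hN⟩ : ∃ N : ℕ, N = Finset.univ.sup n := ⟨_, rfl⟩
  have hB : ∀ i j, B i j ∈ S N := by
    intro i j
    have h1 : n (i, j) ≤ N := by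
      rw [hN]
      exact Finset.le_sup (f := n) (Finset.mem_univ (i, j))
    exact hS.mono h1 (hn (i, j))
  haveI := hS.ss N
  obtain ⟨B', hB'⟩ := QIN_aux (S N) m k (fun i j => ⟨B i j, hB i j⟩)
  refine ⟨B'.map (S N).subtype, ?_⟩
  have e : B = (Matrix.map (fun i j => (⟨B i j, hB i j⟩ : S N)) (S N).subtype) := by
    ext i j
    rfl
  have h2 := congrArg (fun M => Matrix.map M (S N).subtype) hB'
  simp only [Matrix.map_mul] at h2
  rw [← e] at h2
  exact h2

end Pool.Agent.helper63.ZI
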